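import Mathlib

namespace Pool.Agent.Results.MP_0d7d47_co.Zigzag

open Set

/-- The triangles with vertex lists `v` and `w` have proportional side lengths. -/
def SimilarTri (v w : Fin 3 → ℂ) : Prop :=
  ∃ r : ℝ, 0 < r ∧ ∃ σ : Equiv.Perm (Fin 3), ∀ a b, dist (v a) (v b) = r * dist (w (σ a)) (w (σ b))

def q (s : ℕ) : ℕ → ℕ
  | 0 => s
  | k + 1 => q s k ^ 2 * (2 * q s k ^ 2 - 1)

lemma g_gt {x : ℕ} (h : 3 ≤ x) : 12 < x ^ 2 * (2 * x ^ 2 - 1) ∧ x < x ^ 2 * (2 * x ^ 2 - 1) := by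
  obtain ⟨y, hy⟩ : ∃ y, 2 * x ^ 2 = y + 1 := ⟨2 * x ^ 2 - 1, by
    have : 9 ≤ x ^ 2 := by nlinarith
    omega⟩
  rw [hy, Nat.add_sub_cancel]
  have : 9 ≤ x ^ 2 := by nlinarith
  have : 17 ≤ y := by omega
  constructor <;> nlinarith

lemma q_ge {s : ℕ} (h : 3 ≤ s) (k : ℕ) : 3 + k ≤ q s k := by
  induction k with
  | zero => simpa [q] using h
  | succ k ih =>
    have := (g_gt (show 3 ≤ q s k by omega)).2
    rw [q]
    omega

lemma q_dvd {s : ℕ} (h : 3 ∣ s) (k : ℕ) : 3 ∣ q s k := by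
  induction k with
  | zero => exact h
  | succ k ih => exact Dvd.dvd.mul_right (Dvd.dvd.pow ih two_ne_zero) _

lemma g_mono {x y : ℕ} (hx : 1 ≤ x) (h : x < y) :
    x ^ 2 * (2 * x ^ 2 - 1) < y ^ 2 * (2 * y ^ 2 - 1) := by
  have h1 : x ^ 2 < y ^ 2 := Nat.pow_lt_pow_left h two_ne_zero
  have h2 : 1 ≤ x ^ 2 := Nat.one_le_pow _ _ hx
  exact Nat.mul_lt_mul'' h1 (by omega)

lemma q_inj {s t : ℕ} (hs : 3 ≤ s) (ht : 3 ≤ t) (hs' : s ≤ 12) (ht' : t ≤ 12) :
    ∀ k l, q s k = q t l → s = t ∧ k = l := by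
  intro k
  induction k with
  | zero =>
    rintro (_ | l) h
    · exact ⟨h, rfl⟩
    · have := (g_gt (show 3 ≤ q t l by have := q_ge ht l; omega)).1
      simp only [q] at h
      omega
  | succ k ih =>
    rintro (_ | l) h
    · have := (g_gt (show 3 ≤ q s k by have := q_ge hs k; omega)).1
      simp only [q] at h
      omega
    · simp only [q] at h
      have h1 := q_ge hs k
      have h2 := q_ge ht l
      rcases lt_trichotomy (q s k) (q t l) with h' | h' | h'
      · exact absurd h (g_mono (by omega) h').ne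
      · obtain ⟨e1, e2⟩ := ih l h'
        exact ⟨e1, by omega⟩
      · exact absurd h (g_mono (by omega) h').ne'

/-- distances of the zigzag points from the origin -/
def w (s n : ℕ) : ℤ :=
  if n = 0 then 0 else if n % 2 = 1 then 4 * q s (n / 2) else 4 * (q s (n / 2 - 1) : ℤ) ^ 2 - 1

/-- hypotenuses -/
def h (s n : ℕ) : ℤ :=
  if n = 0 then 4 * q s 0 else if n % 2 = 1 then 4 * (q s (n / 2) : ℤ) ^ 2 + 1
    else 4 * q s (n / 2) + 1

lemma q_succ {s : ℕ} (hs : 3 ≤ s) (k : ℕ) :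
    (q s (k + 1) : ℤ) = (q s k : ℤ) ^ 2 * (2 * (q s k : ℤ) ^ 2 - 1) := by
  have h1 := q_ge hs k
  have : 1 ≤ 2 * q s k ^ 2 := by nlinarith
  rw [q]
  push_cast [Nat.cast_sub this]
  ring

lemma cases3 (n : ℕ) : n = 0 ∨ (∃ k, n = 2 * k + 1) ∨ ∃ k, n = 2 * k + 2 := by
  rcases n with _ | n
  · simp
  · obtain ⟨k, rfl | rfl⟩ := Nat.even_or_odd' n
    · exact Or.inr (Or.inl ⟨k, rfl⟩)
    · exact Or.inr (Or.inr ⟨k, rfl⟩)

lemma w0 (s : ℕ) : w s 0 = 0 := by simp [w]
lemma w1 (s k : ℕ) : w s (2 * k + 1) = 4 * q s k := by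
  simp [w, show (2 * k + 1) / 2 = k by omega]
lemma w2 (s k : ℕ) : w s (2 * k + 2) = 4 * (q s k : ℤ) ^ 2 - 1 := by
  simp [w, show (2 * k + 2) / 2 - 1 = k by omega]
lemma h0 (s : ℕ) : h s 0 = 4 * q s 0 := by simp [h]
lemma h1 (s k : ℕ) : h s (2 * k + 1) = 4 * (q s k : ℤ) ^ 2 + 1 := by
  simp [h, show (2 * k + 1) / 2 = k by omega]
lemma h2 (s k : ℕ) : h s (2 * k + 2) = 4 * q s (k + 1) + 1 := by
  simp [h, show (2 * k + 2) / 2 = k + 1 by omega]

lemma pyth {s : ℕ} (hs : 3 ≤ s) (n : ℕ) : w s n ^ 2 + w s (n + 1) ^ 2 = h s n ^ 2 := by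
  rcases cases3 n with rfl | ⟨k, rfl⟩ | ⟨k, rfl⟩
  · rw [w0, h0, show 0 + 1 = 2 * 0 + 1 from rfl, w1]
    ring
  · rw [w1, h1, show 2 * k + 1 + 1 = 2 * k + 2 from rfl, w2]
    ring
  · rw [w2, h2, show 2 * k + 2 + 1 = 2 * (k + 1) + 1 from rfl, w1, q_succ hs]
    ring

/-- the integer part of the ratio of the longest and the shortest side -/
def N (s n : ℕ) : ℤ :=
  if n = 0 then q s 0 else if n % 2 = 1 then 2 * (q s (n / 2) : ℤ) ^ 2 - 2 else q s (n / 2) - 1

lemma N0 (s : ℕ) : N s 0 = q s 0 := by simp [N]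
lemma N1 (s k : ℕ) : N s (2 * k + 1) = 2 * (q s k : ℤ) ^ 2 - 2 := by
  simp [N, show (2 * k + 1) / 2 = k by omega]
lemma N2 (s k : ℕ) : N s (2 * k + 2) = q s (k + 1) - 1 := by
  simp [N, show (2 * k + 2) / 2 = k + 1 by omega]

lemma facts {s : ℕ} (hs : 3 ≤ s) (n : ℕ) : (n : ℤ) ≤ w s n ∧ 0 < h s n ∧
    h s n ≤ w s (n + 2) - w s n ∧ w s (n + 2) - w s n ≤ h s (n + 1) ∧
    N s n * h s n < h s (n + 1) ∧ h s (n + 1) < (N s n + 1) * h s n := by
  rcases cases3 n with rfl | ⟨k, rfl⟩ | ⟨k, rfl⟩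
  · rw [w0, h0, N0, show 0 + 1 = 2 * 0 + 1 from rfl, show 0 + 2 = 2 * 0 + 2 from rfl, w2, h1]
    have : (3 : ℤ) + (0 : ℕ) ≤ q s 0 := by exact_mod_cast q_ge hs 0
    generalize (q s 0 : ℤ) = x at this
    simp only [Nat.cast_zero, add_zero] at this
    refine ⟨by simp, by omega, ?_, ?_, ?_, ?_⟩ <;> nlinarith
  · rw [w1, h1, N1, show 2 * k + 1 + 1 = 2 * k + 2 from rfl,
      show 2 * k + 1 + 2 = 2 * (k + 1) + 1 from rfl, w1, h2, q_succ hs]
    have : (3 : ℤ) + k ≤ q s k := by exact_mod_cast q_ge hs k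
    generalize (q s k : ℤ) = x at this
    have hk : (0 : ℤ) ≤ k := by positivity
    have h9 : 3 * x ≤ x ^ 2 := by nlinarith
    push_cast
    refine ⟨by omega, by positivity, ?_, ?_, ?_, ?_⟩ <;> nlinarith
  · rw [w2, h2, N2, show 2 * k + 2 + 1 = 2 * (k + 1) + 1 from rfl,
      show 2 * k + 2 + 2 = 2 * (k + 1) + 2 from rfl, w2, h1]
    have : (3 : ℤ) + k ≤ q s k := by exact_mod_cast q_ge hs k
    have e := q_succ hs k
    generalize (q s k : ℤ) = x at this e
    generalize (q s (k + 1) : ℤ) = y at e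
    have hk : (0 : ℤ) ≤ k := by positivity
    have h9 : 3 * x ≤ x ^ 2 := by nlinarith
    have hy : 17 * x ^ 2 ≤ y := by nlinarith
    push_cast
    refine ⟨by omega, by omega, ?_, ?_, ?_, ?_⟩ <;> nlinarith

lemma N_inj {s t : ℕ} (hs : 3 ≤ s) (ht : 3 ≤ t) (hs' : s ≤ 12) (ht' : t ≤ 12) (ds : 3 ∣ s)
    (dt : 3 ∣ t) {m n : ℕ} (e : N s m = N t n) : s = t ∧ m = n := by
  have d1 : ∀ k, (3 : ℤ) ∣ q s k := fun k => by exact_mod_cast q_dvd ds k
  have d2 : ∀ k, (3 : ℤ) ∣ q t k := fun k => by exact_mod_cast q_dvd dt k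
  have d3 : ∀ k, (3 : ℤ) ∣ (q s k : ℤ) ^ 2 := fun k => Dvd.dvd.pow (d1 k) two_ne_zero
  have d4 : ∀ k, (3 : ℤ) ∣ (q t k : ℤ) ^ 2 := fun k => Dvd.dvd.pow (d2 k) two_ne_zero
  rcases cases3 m with rfl | ⟨k, rfl⟩ | ⟨k, rfl⟩ <;> rcases cases3 n with rfl | ⟨l, rfl⟩ | ⟨l, rfl⟩ <;>
    simp only [N0, N1, N2] at e
  · exact ⟨(q_inj hs ht hs' ht' 0 0 (by exact_mod_cast e)).1, rfl⟩
  · have := d1 0; have := d4 l; omega
  · have := d1 0; have := d2 (l + 1); omega
  · have := d3 k; have := d2 0; omega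
  · have e' : (q s k : ℤ) ^ 2 = (q t l : ℤ) ^ 2 := by omega
    have := q_inj hs ht hs' ht' k l (by
      exact_mod_cast (pow_left_inj₀ (by positivity) (by positivity) two_ne_zero).1 e')
    exact ⟨this.1, by omega⟩
  · have := d3 k; have := d2 (l + 1); omega
  · have := d1 (k + 1); have := d2 0; omega
  · have := d1 (k + 1); have := d4 l; omega
  · have := q_inj hs ht hs' ht' (k + 1) (l + 1) (by omega)
    exact ⟨this.1, by omega⟩

def sg (b : Bool) : ℝ := if b then 1 else -1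

lemma sg_sq (b : Bool) : sg b * sg b = 1 := by cases b <;> simp [sg]

def e (p : Bool × Bool) (n : ℕ) : ℂ := if n % 2 = 0 then ⟨sg p.1, 0⟩ else ⟨0, sg p.2⟩

def c (p : Bool × Bool) (n : ℕ) (z : ℂ) : ℝ := (e p n).re * z.re + (e p n).im * z.im

lemma e2 (p : Bool × Bool) (n : ℕ) : e p (n + 2) = e p n := by simp [e]

lemma c2 (p : Bool × Bool) (n : ℕ) : c p (n + 2) = c p n := by
  funext z
  simp [c, e2]

lemma frame (p : Bool × Bool) (n : ℕ) :
    (∀ x y : ℝ, c p n (x • e p n + y • e p (n + 1)) = x ∧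
      c p (n + 1) (x • e p n + y • e p (n + 1)) = y ∧
      ‖x • e p n + y • e p (n + 1)‖ ^ 2 = x ^ 2 + y ^ 2) ∧
    ∀ z, z = c p n z • e p n + c p (n + 1) z • e p (n + 1) := by
  have a1 := sg_sq p.1
  have a2 := sg_sq p.2
  rcases Nat.mod_two_eq_zero_or_one n with hn | hn
  · have hn' : (n + 1) % 2 = 1 := by omega
    refine ⟨fun x y => ⟨?_, ?_, ?_⟩, fun z => Complex.ext ?_ ?_⟩ <;>
      simp [c, e, hn, hn', Complex.sq_norm, Complex.normSq_apply]
    · linear_combination x * a1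
    · linear_combination y * a2
    · linear_combination x ^ 2 * a1 + y ^ 2 * a2
    · linear_combination (-z.re) * a1
    · linear_combination (-z.im) * a2
  · have hn' : (n + 1) % 2 = 0 := by omega
    refine ⟨fun x y => ⟨?_, ?_, ?_⟩, fun z => Complex.ext ?_ ?_⟩ <;>
      simp [c, e, hn, hn', Complex.sq_norm, Complex.normSq_apply]
    · linear_combination x * a2
    · linear_combination y * a1
    · linear_combination x ^ 2 * a2 + y ^ 2 * a1
    · linear_combination (-z.re) * a1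
    · linear_combination (-z.im) * a2

def st (p : Bool × Bool) : ℕ := 3 + (if p.1 then 3 else 0) + (if p.2 then 6 else 0)

lemma st_facts (p : Bool × Bool) : 3 ≤ st p ∧ st p ≤ 12 ∧ 3 ∣ st p := by revert p; decide

lemma st_inj (p p' : Bool × Bool) : st p = st p' → p = p' := by revert p p'; decide

def W (p : Bool × Bool) (n : ℕ) : ℝ := w (st p) n

noncomputable def T (i : (Bool × Bool) × ℕ) : Fin 3 → ℂ :=
  ![W i.1 i.2 • e i.1 i.2, W i.1 (i.2 + 1) • e i.1 (i.2 + 1), W i.1 (i.2 + 2) • e i.1 i.2]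

lemma W_facts (p : Bool × Bool) (n : ℕ) : 0 ≤ W p n ∧ 0 < W p (n + 1) ∧ W p n < W p (n + 2) ∧
    (n : ℝ) ≤ W p n := by
  obtain ⟨a1, a2, a3, -⟩ := facts (st_facts p).1 n
  have b1 := (facts (st_facts p).1 (n + 1)).1
  unfold W
  refine ⟨?_, ?_, ?_, ?_⟩ <;> norm_cast <;> omega

lemma mem_hull (v : Fin 3 → ℂ) (z : ℂ) : z ∈ convexHull ℝ (range v) ↔
    ∃ a b d : ℝ, 0 ≤ a ∧ 0 ≤ b ∧ 0 ≤ d ∧ a + b + d = 1 ∧ z = a • v 0 + b • v 1 + d • v 2 := by
  constructor
  · intro hz
    refine convexHull_min (t := {z | ∃ a b d : ℝ, 0 ≤ a ∧ 0 ≤ b ∧ 0 ≤ d ∧ a + b + d = 1 ∧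
      z = a • v 0 + b • v 1 + d • v 2}) ?_ ?_ hz
    · rintro _ ⟨i, rfl⟩
      fin_cases i
      · exact ⟨1, 0, 0, by simp⟩
      · exact ⟨0, 1, 0, by simp⟩
      · exact ⟨0, 0, 1, by simp⟩
    · rintro _ ⟨a, b, d, ha, hb, hd, h, rfl⟩ _ ⟨a', b', d', ha', hb', hd', h', rfl⟩ u t hu ht hut
      exact ⟨u * a + t * a', u * b + t * b', u * d + t * d', by positivity, by positivity,
        by positivity, by linear_combination u * h + t * h' + hut, by module⟩
  · rintro ⟨a, b, d, ha, hb, hd, h, rfl⟩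
    exact mem_convexHull_of_exists_fintype ![a, b, d] v (fun i => by fin_cases i <;> simpa)
      (by simpa [Fin.sum_univ_three] using h) (fun i => ⟨i, rfl⟩) (by simp [Fin.sum_univ_three])

def G (p : Bool × Bool) (n : ℕ) (z : ℂ) : ℝ :=
  W p (n + 1) * c p n z + W p n * c p (n + 1) z - W p n * W p (n + 1)

lemma mem_T (p : Bool × Bool) (n : ℕ) (z : ℂ) : z ∈ convexHull ℝ (range (T (p, n))) ↔
    0 ≤ c p n z ∧ 0 ≤ c p (n + 1) z ∧ 0 ≤ G p n z ∧ G p (n + 1) z ≤ 0 := by
  obtain ⟨a1, a2, a3, -⟩ := W_facts p n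
  rw [mem_hull]
  simp only [T, Matrix.cons_val_zero, Matrix.cons_val_one, Matrix.cons_val, G, add_assoc n,
    one_add_one_eq_two, c2]
  constructor
  · rintro ⟨a, b, d, ha, hb, hd, h, hz⟩
    have hz' : z = (a * W p n + d * W p (n + 2)) • e p n + (b * W p (n + 1)) • e p (n + 1) := by
      rw [hz]; module
    obtain ⟨f1, f2, -⟩ := (frame p n).1 (a * W p n + d * W p (n + 2)) (b * W p (n + 1))
    rw [← hz'] at f1 f2
    rw [f1, f2, show b = 1 - a - d by linarith]
    have := mul_nonneg (mul_nonneg hd a2.le) (sub_nonneg.2 a3.le)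
    have := mul_nonneg (mul_nonneg ha a2.le) (sub_nonneg.2 a3.le)
    refine ⟨add_nonneg (mul_nonneg ha a1) (mul_nonneg hd (by linarith)),
      mul_nonneg (by linarith) a2.le, by nlinarith, by nlinarith⟩
  · rintro ⟨-, b2, b3, b4⟩
    have hz := (frame p n).2 z
    have hp : 0 < W p (n + 2) - W p n := by linarith
    generalize c p n z = x at *
    generalize c p (n + 1) z = y at *
    refine ⟨-(W p (n + 2) * y + W p (n + 1) * x - W p (n + 1) * W p (n + 2)) /
      (W p (n + 1) * (W p (n + 2) - W p n)), y / W p (n + 1),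
      (W p (n + 1) * x + W p n * y - W p n * W p (n + 1)) / (W p (n + 1) * (W p (n + 2) - W p n)),
      div_nonneg (by linarith) (by positivity), by positivity, by positivity, ?_, ?_⟩
    · field_simp
      ring
    · rw [hz]
      match_scalars <;> field_simp <;> ring

lemma G_step (p : Bool × Bool) (n : ℕ) (z : ℂ) (h1 : 0 ≤ c p n z) (h : 0 ≤ G p (n + 1) z) :
    0 ≤ G p n z := by
  obtain ⟨a1, a2, a3, -⟩ := W_facts p n
  simp only [G, add_assoc n, one_add_one_eq_two, c2] at h ⊢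
  rcases le_total (c p (n + 1) z) (W p (n + 1)) with h' | h'
  · nlinarith [mul_nonneg (sub_nonneg.2 a3.le) (sub_nonneg.2 h')]
  · nlinarith [mul_nonneg a1 (sub_nonneg.2 h'), mul_nonneg a2.le h1]

lemma c_all (p : Bool × Bool) (n : ℕ) (z : ℂ) (h1 : 0 ≤ c p n z) (h2 : 0 ≤ c p (n + 1) z) (m : ℕ) :
    0 ≤ c p m z := by
  by_cases h : m % 2 = n % 2
  · simpa only [c, e, h] using h1
  · simpa only [c, e, show m % 2 = (n + 1) % 2 by omega] using h2

lemma sep {S S' : Set ℂ} (u : ℂ) (γ : ℝ) (hu : u ≠ 0)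
    (h1 : ∀ z ∈ S, u.re * z.re + u.im * z.im ≤ γ) (h2 : ∀ z ∈ S', γ ≤ u.re * z.re + u.im * z.im) :
    Disjoint (interior S) (interior S') := by
  rw [Set.disjoint_left]
  intro z hz hz'
  have hc : ContinuousAt (fun t : ℝ => z + t • u) 0 := by fun_prop
  have e1 : ∀ᶠ t in nhds (0 : ℝ), z + t • u ∈ S := by
    apply hc.eventually_mem
    simpa using mem_interior_iff_mem_nhds.1 hz
  obtain ⟨t, ht, ht0⟩ := ((e1.filter_mono nhdsWithin_le_nhds).and
    (self_mem_nhdsWithin (s := Set.Ioi (0 : ℝ)))).exists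
  have a1 := h1 _ ht
  have a2 := h2 _ (interior_subset hz')
  have := mul_pos (show 0 < t from ht0) (Complex.normSq_pos.2 hu)
  simp only [Complex.add_re, Complex.add_im, Complex.smul_re, Complex.smul_im, smul_eq_mul,
    Complex.normSq_apply] at a1 this
  nlinarith

lemma dists (p : Bool × Bool) (n : ℕ) :
    dist (T (p, n) 0) (T (p, n) 1) = h (st p) n ∧
    dist (T (p, n) 0) (T (p, n) 2) = (w (st p) (n + 2) - w (st p) n : ℤ) ∧
    dist (T (p, n) 1) (T (p, n) 2) = h (st p) (n + 1) := by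
  have hs := (st_facts p).1
  have p1 : W p n ^ 2 + W p (n + 1) ^ 2 = (h (st p) n : ℝ) ^ 2 := by
    unfold W; exact_mod_cast pyth hs n
  have p2 : W p (n + 1) ^ 2 + W p (n + 2) ^ 2 = (h (st p) (n + 1) : ℝ) ^ 2 := by
    unfold W; exact_mod_cast pyth hs (n + 1)
  have b1 : (0 : ℝ) < h (st p) n := by exact_mod_cast (facts hs n).2.1
  have b2 : (0 : ℝ) < h (st p) (n + 1) := by exact_mod_cast (facts hs (n + 1)).2.1
  have b3 := (W_facts p n).2.2.1
  simp only [T, Matrix.cons_val_zero, Matrix.cons_val_one, Matrix.cons_val, dist_eq_norm]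
  refine ⟨?_, ?_, ?_⟩
  · rw [← sq_eq_sq₀ (norm_nonneg _) b1.le, ← p1, ← neg_sq (W p (n + 1)), ← ((frame p n).1 _ _).2.2]
    congr 2
    module
  · have := ((frame p n).1 (W p n - W p (n + 2)) 0).2.2
    push_cast
    change _ = W p (n + 2) - W p n
    rw [← sq_eq_sq₀ (norm_nonneg _) (sub_nonneg.2 b3.le), ← sub_smul]
    simp only [zero_smul, add_zero] at this
    rw [this]
    ring
  · rw [← sq_eq_sq₀ (norm_nonneg _) b2.le, ← p2, add_comm (W p (n + 1) ^ 2), ← neg_sq (W p (n + 2)),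
      ← ((frame p n).1 _ _).2.2]
    congr 2
    module

lemma bounds (p : Bool × Bool) (n : ℕ) (a b : Fin 3) (hab : a ≠ b) :
    (h (st p) n : ℝ) ≤ dist (T (p, n) a) (T (p, n) b) ∧
      dist (T (p, n) a) (T (p, n) b) ≤ h (st p) (n + 1) ∧
      ∃ k : ℕ, 0 < k ∧ dist (T (p, n) a) (T (p, n) b) = k := by
  obtain ⟨d1, d2, d3⟩ := dists p n
  obtain ⟨-, a2, a3, a4, -⟩ := facts (st_facts p).1 n
  have key : ∀ (x : ℝ) (k : ℤ), x = k → h (st p) n ≤ k → k ≤ h (st p) (n + 1) →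
      (h (st p) n : ℝ) ≤ x ∧ x ≤ h (st p) (n + 1) ∧ ∃ k : ℕ, 0 < k ∧ x = k := by
    rintro _ k rfl h1 h2
    refine ⟨by exact_mod_cast h1, by exact_mod_cast h2, k.toNat, by omega, ?_⟩
    rw [← Int.cast_natCast, Int.toNat_of_nonneg (by omega)]
  fin_cases a <;> fin_cases b <;> simp only [Fin.zero_eta, Fin.mk_one, Fin.reduceFinMk] at hab ⊢
  · exact absurd rfl hab
  · exact key _ _ d1 le_rfl (by omega)
  · exact key _ _ d2 a3 a4
  · exact key _ _ ((dist_comm _ _).trans d1) le_rfl (by omega)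
  · exact absurd rfl hab
  · exact key _ _ d3 (by omega) le_rfl
  · exact key _ _ ((dist_comm _ _).trans d2) a3 a4
  · exact key _ _ ((dist_comm _ _).trans d3) (by omega) le_rfl
  · exact absurd rfl hab

theorem result : ∃ (I : Type) (V : I → Fin 3 → ℂ), (∀ i, AffineIndependent ℝ (V i)) ∧
    ⋃ i, convexHull ℝ (range (V i)) = univ ∧
    (∀ i j, i ≠ j → Disjoint (interior (convexHull ℝ (range (V i))))
      (interior (convexHull ℝ (range (V j))))) ∧
    (∀ i a b, a ≠ b → ∃ k : ℕ, 0 < k ∧ dist (V i a) (V i b) = k) ∧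
    ∀ i j, i ≠ j → ¬SimilarTri (V i) (V j) := by
  refine ⟨(Bool × Bool) × ℕ, T, ?_, ?_, ?_, fun i a b hab => (bounds i.1 i.2 a b hab).2.2, ?_⟩
  · rintro ⟨p, n⟩
    obtain ⟨a1, a2, a3, -⟩ := W_facts p n
    rw [affineIndependent_iff_of_fintype]
    intro u hu hz
    rw [Finset.weightedVSub_eq_linear_combination _ hu] at hz
    simp only [Fin.sum_univ_three, T, Matrix.cons_val_zero, Matrix.cons_val_one,
      Matrix.cons_val] at hu hz
    obtain ⟨f1, f2, -⟩ := (frame p n).1 (u 0 * W p n + u 2 * W p (n + 2)) (u 1 * W p (n + 1))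
    rw [show (u 0 * W p n + u 2 * W p (n + 2)) • e p n + (u 1 * W p (n + 1)) • e p (n + 1) = 0 by
      rw [← hz]; module] at f1 f2
    simp only [c, Complex.zero_re, Complex.zero_im, mul_zero, add_zero] at f1 f2
    have u1 : u 1 = 0 := (mul_eq_zero.1 f2.symm).resolve_right a2.ne'
    have u2 : u 2 * (W p (n + 2) - W p n) = 0 := by linear_combination -f1 - W p n * hu + W p n * u1
    have u3 : u 2 = 0 := (mul_eq_zero.1 u2).resolve_right (by linarith)
    intro i
    fin_cases i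
    · show u 0 = 0
      linarith
    · exact u1
    · exact u3
  · rw [eq_univ_iff_forall]
    intro z
    obtain ⟨p, hp⟩ : ∃ p, ∀ m, 0 ≤ c p m z := by
      refine ⟨(decide (0 ≤ z.re), decide (0 ≤ z.im)), c_all _ 0 z ?_ ?_⟩
      · by_cases h : 0 ≤ z.re <;> simp [c, e, sg, h]
        linarith
      · by_cases h : 0 ≤ z.im <;> simp [c, e, sg, h]
        linarith
    have hex : ∃ n, G p (n + 1) z ≤ 0 := by
      obtain ⟨n, hn⟩ := exists_nat_ge (2 * (c p 0 z + c p 1 z))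
      have hb : ∀ m, 2 * c p m z ≤ n := by
        intro m
        have b0 := hp 0
        have b1 := hp 1
        rcases Nat.mod_two_eq_zero_or_one m with h | h
        · have : c p m z = c p 0 z := by simp only [c, e, h]
          linarith
        · have : c p m z = c p 1 z := by simp only [c, e, h]
          linarith
      refine ⟨n, ?_⟩
      obtain ⟨a1, a2, -, a4⟩ := W_facts p (n + 1)
      have a5 := (W_facts p (n + 1 + 1)).2.2.2
      have b1 := hb (n + 1)
      have b2 := hb (n + 1 + 1)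
      push_cast at a4 a5
      unfold G
      nlinarith [mul_nonneg a1 (show 0 ≤ W p (n + 1 + 1) - 2 * c p (n + 1 + 1) z by linarith),
        mul_nonneg a2.le (show 0 ≤ W p (n + 1) - 2 * c p (n + 1) z by linarith)]
    classical
    refine mem_iUnion.2 ⟨(p, Nat.find hex), (mem_T _ _ _).2 ⟨hp _, hp _, ?_, Nat.find_spec hex⟩⟩
    rcases hn : Nat.find hex with _ | m
    · simp only [G, W, w0, Int.cast_zero, zero_mul, add_zero, sub_zero]
      exact mul_nonneg (W_facts p 0).2.1.le (hp 0)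
    · exact (not_le.1 (Nat.find_min hex (show m < Nat.find hex by omega))).le
  · have same : ∀ p n m, n < m → Disjoint (interior (convexHull ℝ (range (T (p, n)))))
        (interior (convexHull ℝ (range (T (p, m))))) := by
      intro p n m hnm
      have hG : ∀ z, G p (n + 1) z = (W p (n + 2) • e p (n + 1) + W p (n + 1) • e p (n + 2)).re * z.re
          + (W p (n + 2) • e p (n + 1) + W p (n + 1) • e p (n + 2)).im * z.im -
            W p (n + 1) * W p (n + 2) := by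
        intro z
        simp [G, c, add_assoc n]
        ring
      refine sep (W p (n + 2) • e p (n + 1) + W p (n + 1) • e p (n + 2)) (W p (n + 1) * W p (n + 2))
        (fun h0 => ?_) (fun z hz => ?_) (fun z hz => ?_)
      · have := ((frame p (n + 1)).1 (W p (n + 2)) (W p (n + 1))).2.1
        rw [h0] at this
        have h2 := (W_facts p n).2.1
        simp [c] at this
        linarith
      · have := ((mem_T _ _ _).1 hz).2.2.2
        rw [hG] at this
        linarith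
      · obtain ⟨b1, b2, b3, -⟩ := (mem_T _ _ _).1 hz
        have : 0 ≤ G p (n + 1) z :=
          Nat.decreasingInduction' (P := fun k => 0 ≤ G p k z)
            (fun k _ _ hk => G_step p k z (c_all p m z b1 b2 k) hk) hnm b3
        rw [hG] at this
        linarith
    rintro ⟨p, n⟩ ⟨p', m⟩ hne
    by_cases hp : p = p'
    · subst hp
      rcases lt_trichotomy n m with h | rfl | h
      · exact same p n m h
      · exact absurd rfl hne
      · exact (same p m n h).symm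
    · obtain ⟨k, hk⟩ : ∃ k, e p k = -e p' k := by
        obtain ⟨a, b⟩ := p
        obtain ⟨a', b'⟩ := p'
        by_cases ha : a = a'
        · subst ha
          have : b ≠ b' := fun h => hp (by rw [h])
          exact ⟨1, by cases b <;> cases b' <;> simp_all [e, sg, Complex.ext_iff]⟩
        · exact ⟨0, by cases a <;> cases a' <;> simp_all [e, sg, Complex.ext_iff]⟩
      refine sep (e p' k) 0 (fun h0 => ?_) (fun z hz => ?_) (fun z hz => ?_)
      · have := ((frame p' k).1 1 0).1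
        simp [c, h0] at this
      · obtain ⟨b1, b2, -⟩ := (mem_T _ _ _).1 hz
        have := c_all p n z b1 b2 k
        simp only [c, hk, Complex.neg_re, Complex.neg_im] at this
        linarith
      · obtain ⟨b1, b2, -⟩ := (mem_T _ _ _).1 hz
        exact c_all p' m z b1 b2 k
  · rintro ⟨p, n⟩ ⟨p', m⟩ hne ⟨r, hr, σ, hσ⟩
    apply hne
    obtain ⟨d1, -, d3⟩ := dists p n
    obtain ⟨d1', -, d3'⟩ := dists p' m
    have i1 := (bounds p' m (σ 0) (σ 1) (σ.injective.ne (by decide))).1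
    have i2 := (bounds p' m (σ 1) (σ 2) (σ.injective.ne (by decide))).2.1
    have i3 := (bounds p n (σ.symm 0) (σ.symm 1) (σ.symm.injective.ne (by decide))).1
    have i4 := (bounds p n (σ.symm 1) (σ.symm 2) (σ.symm.injective.ne (by decide))).2.1
    rw [hσ, Equiv.apply_symm_apply, Equiv.apply_symm_apply] at i3 i4
    rw [d1'] at i3
    rw [d3'] at i4
    rw [hσ] at d1 d3
    have j1 : (h (st p) n : ℝ) = r * h (st p') m :=
      le_antisymm i3 (by rw [← d1]; exact mul_le_mul_of_nonneg_left i1 hr.le)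
    have j2 : (h (st p) (n + 1) : ℝ) = r * h (st p') (m + 1) :=
      le_antisymm (by rw [← d3]; exact mul_le_mul_of_nonneg_left i2 hr.le) i4
    have j3 : h (st p) n * h (st p') (m + 1) = h (st p) (n + 1) * h (st p') m := by
      have : (h (st p) n : ℝ) * h (st p') (m + 1) = h (st p) (n + 1) * h (st p') m := by
        rw [j1, j2]; ring
      exact_mod_cast this
    obtain ⟨s1, s2, s3⟩ := st_facts p
    obtain ⟨t1, t2, t3⟩ := st_facts p'
    obtain ⟨-, a2, -, -, a5, a6⟩ := facts s1 n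
    obtain ⟨-, b2, -, -, b5, b6⟩ := facts t1 m
    have hN : N (st p) n = N (st p') m := by
      have k1 : N (st p) n < N (st p') m + 1 := by
        refine lt_of_mul_lt_mul_right (a := h (st p) n * h (st p') m) ?_ (by positivity)
        nlinarith [mul_lt_mul_of_pos_right a5 b2, mul_lt_mul_of_pos_left b6 a2]
      have k2 : N (st p') m < N (st p) n + 1 := by
        refine lt_of_mul_lt_mul_right (a := h (st p) n * h (st p') m) ?_ (by positivity)
        nlinarith [mul_lt_mul_of_pos_right a6 b2, mul_lt_mul_of_pos_left b5 a2]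
      omega
    obtain ⟨e1, e2⟩ := N_inj s1 t1 s2 t2 s3 t3 hN
    rw [st_inj _ _ e1, e2]

end Pool.Agent.Results.MP_0d7d47_co.Zigzag
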